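import Mathlib
import Pool.Agent.X126.Buo

set_option autoImplicit false

open Finset Filter Topology

namespace Pool.Agent.Results.MP_55c50e_an.NotBuoComplete

/-- `x` belongs to `ℓ_p`. -/
def InLp (p : ℝ) (x : ℕ → ℝ) : Prop := Summable fun j => |x j| ^ p

/-- Order convergence in the vector lattice `ℓ_p` (coordinatewise order) of the sequence `d` to `l`: there are
a decreasing sequence `z` of nonnegative elements of `ℓ_p` whose infimum in `ℓ_p` is `0` and indices `N_m` with
`|d_k - l| ≤ z_m` for all `k ≥ N_m`. -/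
def OrderConv (p : ℝ) (d : ℕ → ℕ → ℝ) (l : ℕ → ℝ) : Prop :=
  ∃ z : ℕ → ℕ → ℝ, (∀ m, InLp p (z m)) ∧ (∀ m j, 0 ≤ z m j) ∧ Antitone z ∧
    (∀ w : ℕ → ℝ, InLp p w → (∀ m, w ≤ z m) → w ≤ 0) ∧
    ∀ m, ∃ N, ∀ k ≥ N, ∀ j, |d k j - l j| ≤ z m j

/-- The sequence `x` in `ℓ_p` is Buo-Cauchy: the consecutive differences of each of its subsequences converge in
order to `0`. -/
def BuoCauchy (p : ℝ) (x : ℕ → ℕ → ℝ) : Prop :=
  ∀ φ : ℕ → ℕ, StrictMono φ → OrderConv p (fun k => x (φ (k + 1)) - x (φ k)) 0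

open Pool.Agent.X126.Buo in
/-- For every `p` with `1 < p < ∞` there is a Buo-Cauchy sequence in `ℓ_p` which has no order limit in `ℓ_p`. -/
theorem result (p : ℝ) (hp : 1 < p) :
    ∃ x : ℕ → ℕ → ℝ, (∀ n, InLp p (x n)) ∧ BuoCauchy p x ∧
      ¬ ∃ l, InLp p l ∧ OrderConv p x l := by
  have hp0 : 0 < p := by linarith
  set N : ℕ := ⌈p⌉₊ with hN
  have hpN : p ≤ N := Nat.le_ceil p
  -- the weights
  set W : ℕ → ℝ := fun i => (1 / 2) ^ (2 ^ i) * ((2 : ℝ) ^ i) ^ (-p) with hW
  have hWpos : ∀ i, 0 < W i := fun i => by positivity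
  set w : ℕ → ℝ := fun i => (W i) ^ (1 / p) with hw
  have hwpos : ∀ i, 0 < w i := fun i => Real.rpow_pos_of_pos (hWpos i) _
  have hwp : ∀ i, (w i) ^ p = W i := by
    intro i
    simp only [hw]
    rw [← Real.rpow_mul (hWpos i).le, one_div_mul_cancel hp0.ne', Real.rpow_one]
  -- the sequence on ℕ × ℕ
  set X : ℕ → ℕ × ℕ → ℝ := fun t q => if q.2 ∈ J (2 ^ q.1) then w q.1 * L (2 ^ q.1) t q.2 else 0 with hX
  have habs : ∀ t t' i j, |X t (i, j) - X t' (i, j)| ^ p =
      if j ∈ J (2 ^ i) then W i * |(L (2 ^ i) t j : ℝ) - L (2 ^ i) t' j| ^ p else 0 := by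
    intro t t' i j
    simp only [hX]
    split_ifs with h
    · rw [← mul_sub, abs_mul, abs_of_pos (hwpos i), Real.mul_rpow (hwpos i).le (abs_nonneg _), hwp]
    · rw [sub_self, abs_zero, Real.zero_rpow hp0.ne']
  have hRsum : Summable fun i : ℕ => W i * (8 * C N * (((2 : ℕ) ^ i : ℕ) * 2 ^ (2 ^ i))) := by
    have h1 : (fun i : ℕ => W i * (8 * C N * (((2 : ℕ) ^ i : ℕ) * 2 ^ (2 ^ i)))) =
        fun i : ℕ => (8 * C N) * ((2 : ℝ) ^ (1 - p)) ^ i := by
      funext i
      simp only [hW]
      have h2 : ((1 : ℝ) / 2) ^ (2 ^ i) * 2 ^ (2 ^ i) = 1 := by rw [← mul_pow]; norm_num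
      have h3 : ((2 : ℝ) ^ i) ^ (-p) * 2 ^ i = ((2 : ℝ) ^ (1 - p)) ^ i := by
        rw [← Real.rpow_natCast 2 i, ← Real.rpow_mul (by norm_num), ← Real.rpow_add (by norm_num),
          ← Real.rpow_natCast, ← Real.rpow_mul (by norm_num)]
        congr 1; ring
      push_cast
      calc (1 / 2 : ℝ) ^ (2 ^ i) * ((2 : ℝ) ^ i) ^ (-p) * (8 * C N * (2 ^ i * 2 ^ (2 ^ i)))
          = (8 * C N) * (((1 : ℝ) / 2) ^ (2 ^ i) * 2 ^ (2 ^ i)) * (((2 : ℝ) ^ i) ^ (-p) * 2 ^ i) := by
            ring
        _ = _ := by rw [h2, h3, mul_one]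
    rw [h1]
    refine (summable_geometric_of_lt_one (by positivity) ?_).mul_left _
    exact Real.rpow_lt_one_of_one_lt_of_neg (by norm_num) (by linarith)
  -- summability along subsequences
  have hsum : ∀ φ : ℕ → ℕ, StrictMono φ → Summable fun q : (ℕ × ℕ) × ℕ =>
      |X (φ (q.2 + 1)) q.1 - X (φ q.2) q.1| ^ p := by
    intro φ hφ
    have hbound : ∀ i, ∀ u : Finset (ℕ × ℕ), ∑ q ∈ u, |X (φ (q.2 + 1)) (i, q.1) - X (φ q.2) (i, q.1)| ^ p ≤
        W i * (8 * C N * (((2 : ℕ) ^ i : ℕ) * 2 ^ (2 ^ i))) := by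
      intro i u
      obtain ⟨K, hK⟩ : ∃ K, ∀ q ∈ u, q.2 < K := by
        refine ⟨u.sup (fun q => q.2) + 1, fun q hq => ?_⟩
        exact Nat.lt_succ_of_le (Finset.le_sup (f := fun q : ℕ × ℕ => q.2) hq)
      have h1 : ∑ q ∈ u, |X (φ (q.2 + 1)) (i, q.1) - X (φ q.2) (i, q.1)| ^ p ≤
          ∑ q ∈ J (2 ^ i) ×ˢ range K, |X (φ (q.2 + 1)) (i, q.1) - X (φ q.2) (i, q.1)| ^ p := by
        have h2 : ∑ q ∈ u, |X (φ (q.2 + 1)) (i, q.1) - X (φ q.2) (i, q.1)| ^ p =
            ∑ q ∈ u.filter (fun q => q.1 ∈ J (2 ^ i)),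
              |X (φ (q.2 + 1)) (i, q.1) - X (φ q.2) (i, q.1)| ^ p := by
          rw [sum_filter]
          refine sum_congr rfl fun q _ => ?_
          rw [habs]
          split_ifs <;> rfl
        rw [h2]
        refine sum_le_sum_of_subset_of_nonneg ?_ fun _ _ _ => by positivity
        intro q hq
        rw [mem_filter] at hq
        rw [mem_product, mem_range]
        exact ⟨hq.2, hK q hq.1⟩
      refine h1.trans ?_
      rw [sum_product_right]
      have h3 : ∀ k, ∑ j ∈ J (2 ^ i), |X (φ (k + 1)) (i, j) - X (φ k) (i, j)| ^ p ≤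
          W i * (A N (2 ^ i) (φ (k + 1)) - A N (2 ^ i) (φ k)) := by
        intro k
        have h4 := cost p hp0 N hpN (2 ^ i) (φ k) (φ (k + 1)) (hφ.monotone (Nat.le_succ k))
        have h5 : ∑ j ∈ J (2 ^ i), |X (φ (k + 1)) (i, j) - X (φ k) (i, j)| ^ p =
            W i * ∑ j ∈ J (2 ^ i), |(L (2 ^ i) (φ k) j : ℝ) - L (2 ^ i) (φ (k + 1)) j| ^ p := by
          rw [mul_sum]
          refine sum_congr rfl fun j hj => ?_
          rw [habs, if_pos hj, abs_sub_comm]
        rw [h5]
        exact mul_le_mul_of_nonneg_left h4 (hWpos i).le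
      refine (sum_le_sum fun k _ => h3 k).trans ?_
      rw [← mul_sum]
      refine mul_le_mul_of_nonneg_left ?_ (hWpos i).le
      rw [sum_range_sub (fun k => A N (2 ^ i) (φ k)) K]
      have h6 := A_le N (2 ^ i) (φ K)
      have h7 := A_nonneg N (2 ^ i) (φ 0)
      linarith
    have hs1 : Summable fun q : ℕ × (ℕ × ℕ) =>
        |X (φ (q.2.2 + 1)) (q.1, q.2.1) - X (φ q.2.2) (q.1, q.2.1)| ^ p := by
      rw [summable_prod_of_nonneg (fun q => by positivity)]
      refine ⟨fun i => ?_, ?_⟩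
      · exact summable_of_sum_le (fun q => by positivity) (hbound i)
      · refine Summable.of_nonneg_of_le (fun i => tsum_nonneg fun q => by positivity) (fun i => ?_) hRsum
        exact Real.tsum_le_of_sum_le (fun q => by positivity) (hbound i)
    exact (Equiv.prodAssoc ℕ ℕ ℕ).summable_iff.2 hs1 |>.congr fun q => rfl
  -- transport to ℕ
  set e : ℕ ≃ ℕ × ℕ := Nat.pairEquiv.symm with he
  refine ⟨fun t n => X t (e n), ?_, ?_, ?_⟩
  · intro t
    unfold InLp
    have h1 : Summable fun q : ℕ × ℕ => |X t q| ^ p := by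
      refine summable_of_finite_support ?_
      refine Set.Finite.subset ((Finset.range t ×ˢ Finset.range (2 ^ (2 ^ t + 1))).finite_toSet) ?_
      rintro ⟨i, j⟩ hq
      rw [Function.mem_support] at hq
      have hj : j ∈ J (2 ^ i) := by
        by_contra hcon
        apply hq
        simp only [hX]
        rw [if_neg hcon, abs_zero, Real.zero_rpow hp0.ne']
      have hL : L (2 ^ i) t j ≠ 0 := by
        intro hcon
        apply hq
        simp only [hX]
        rw [if_pos hj, hcon, Nat.cast_zero, mul_zero, abs_zero, Real.zero_rpow hp0.ne']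
      have ht : 2 ^ (2 ^ i) ≤ t := by
        by_contra hcon
        exact hL (L_zero_of_lt (by omega) hj)
      have hi : i < 2 ^ i := Nat.lt_two_pow_self
      have hi2 : 2 ^ i < 2 ^ (2 ^ i) := Nat.lt_two_pow_self
      have hit : i < t := by omega
      rw [Finset.coe_product, Set.mem_prod, Finset.coe_range, Finset.coe_range]
      refine ⟨hit, ?_⟩
      unfold J at hj
      rw [mem_Ico] at hj
      refine lt_of_lt_of_le hj.2 (Nat.pow_le_pow_right (by norm_num) ?_)
      have : 2 ^ i ≤ 2 ^ t := Nat.pow_le_pow_right (by norm_num) hit.le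
      omega
    exact (e.summable_iff (f := fun q : ℕ × ℕ => |X t q| ^ p)).2 h1
  · intro φ hφ
    have h1 := hsum φ hφ
    have h2 := (summable_prod_of_nonneg (fun q => by positivity)).1 h1
    simp only at h2
    -- tails
    set Z : ℕ → ℕ × ℕ → ℝ := fun m q =>
      (∑' k, |X (φ (k + m + 1)) q - X (φ (k + m)) q| ^ p) ^ (1 / p) with hZ
    have hZs : ∀ m q, Summable fun k => |X (φ (k + m + 1)) q - X (φ (k + m)) q| ^ p := by
      intro m q
      exact (summable_nat_add_iff m (f := fun k => |X (φ (k + 1)) q - X (φ k) q| ^ p)).2 (h2.1 q)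
    have hZ0 : ∀ m q, 0 ≤ ∑' k, |X (φ (k + m + 1)) q - X (φ (k + m)) q| ^ p := fun m q =>
      tsum_nonneg fun k => by positivity
    have hZnn : ∀ m q, 0 ≤ Z m q := fun m q => Real.rpow_nonneg (hZ0 m q) _
    have hZp : ∀ m q, |Z m q| ^ p = ∑' k, |X (φ (k + m + 1)) q - X (φ (k + m)) q| ^ p := by
      intro m q
      rw [abs_of_nonneg (hZnn m q)]
      simp only [hZ]
      rw [← Real.rpow_mul (hZ0 m q), one_div_mul_cancel hp0.ne', Real.rpow_one]
    have hstep : ∀ m q, ∑' k, |X (φ (k + (m + 1) + 1)) q - X (φ (k + (m + 1))) q| ^ p ≤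
        ∑' k, |X (φ (k + m + 1)) q - X (φ (k + m)) q| ^ p := by
      intro m q
      rw [(hZs m q).tsum_eq_zero_add]
      have h3 : ∀ k, |X (φ (k + 1 + m + 1)) q - X (φ (k + 1 + m)) q| ^ p =
          |X (φ (k + (m + 1) + 1)) q - X (φ (k + (m + 1))) q| ^ p := by
        intro k
        rw [show k + 1 + m = k + (m + 1) by ring]
      rw [tsum_congr h3]
      have : (0:ℝ) ≤ |X (φ (0 + m + 1)) q - X (φ (0 + m)) q| ^ p := by positivity
      linarith
    have hle0 : ∀ m q, ∑' k, |X (φ (k + m + 1)) q - X (φ (k + m)) q| ^ p ≤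
        ∑' k, |X (φ (k + 1)) q - X (φ k) q| ^ p := by
      intro m q
      induction m with
      | zero => exact le_rfl
      | succ m ih => exact (hstep m q).trans ih
    refine ⟨fun m n => Z m (e n), ?_, fun m n => hZnn m _, ?_, ?_, ?_⟩
    · intro m
      unfold InLp
      have h3 : Summable fun q : ℕ × ℕ => |Z m q| ^ p := by
        refine Summable.of_nonneg_of_le (fun q => by positivity) (fun q => ?_) h2.2
        rw [hZp]
        exact hle0 m q
      exact (e.summable_iff (f := fun q : ℕ × ℕ => |Z m q| ^ p)).2 h3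
    · refine antitone_nat_of_succ_le fun m n => ?_
      simp only [hZ]
      exact Real.rpow_le_rpow (hZ0 _ _) (hstep m _) (by positivity)
    · intro v _ hv n
      have h3 : Tendsto (fun m => ∑' k, |X (φ (k + m + 1)) (e n) - X (φ (k + m)) (e n)| ^ p) atTop
          (𝓝 0) := tendsto_sum_nat_add (fun k => |X (φ (k + 1)) (e n) - X (φ k) (e n)| ^ p)
      have h4 : Tendsto (fun m => Z m (e n)) atTop (𝓝 0) := by
        have := h3.rpow_const (p := 1 / p) (Or.inr (by positivity))
        rwa [Real.zero_rpow (by positivity)] at this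
      exact ge_of_tendsto' h4 fun m => hv m n
    · intro m
      refine ⟨m, fun k hk n => ?_⟩
      simp only [Pi.sub_apply, Pi.zero_apply, sub_zero]
      have h3 : |X (φ (k + 1)) (e n) - X (φ k) (e n)| ^ p ≤ |Z m (e n)| ^ p := by
        rw [hZp]
        have h4 := (hZs m (e n)).le_tsum (k - m) (fun _ _ => by positivity)
        rwa [Nat.sub_add_cancel hk] at h4
      have h5 := (Real.rpow_le_rpow_iff (abs_nonneg _) (abs_nonneg _) hp0).1 h3
      rwa [abs_of_nonneg (hZnn m _)] at h5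
  · rintro ⟨l, hl, z, hz, hz0, -, -, hconv⟩
    obtain ⟨K, hK⟩ := hconv 0
    -- a dominating element
    have hy : Summable fun n => (|l n| + z 0 n) ^ p := by
      refine Summable.of_nonneg_of_le (fun n => by
        have := hz0 0 n; positivity) (fun n => ?_) (((hl.add (hz 0)).mul_left ((2:ℝ) ^ p)))
      have h1 := hz0 0 n
      have h2 : |l n| + z 0 n ≤ 2 * max |l n| |z 0 n| := by
        have := le_max_left |l n| |z 0 n|
        have := le_max_right |l n| |z 0 n|
        have := le_abs_self (z 0 n)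
        linarith
      refine (Real.rpow_le_rpow (by positivity) h2 hp0.le).trans ?_
      rw [Real.mul_rpow (by norm_num) (by positivity)]
      refine mul_le_mul_of_nonneg_left ?_ (by positivity)
      rcases max_choice |l n| |z 0 n| with h | h <;> rw [h]
      · have : (0:ℝ) ≤ |z 0 n| ^ p := by positivity
        linarith
      · have : (0:ℝ) ≤ |l n| ^ p := by positivity
        linarith
    have hy2 : Summable fun q : ℕ × ℕ => (|l (e.symm q)| + z 0 (e.symm q)) ^ p :=
      (e.symm.summable_iff (f := fun n => (|l n| + z 0 n) ^ p)).2 hy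
    have hynn : ∀ q : ℕ × ℕ, 0 ≤ (|l (e.symm q)| + z 0 (e.symm q)) ^ p := by
      intro q
      have := hz0 0 (e.symm q)
      positivity
    have h3 := (summable_prod_of_nonneg hynn).1 hy2
    have h4 := h3.2.tendsto_atTop_zero
    have h5 := (h4.eventually (gt_mem_nhds (show (0:ℝ) < 1 by norm_num))).and
      (eventually_ge_atTop K)
    obtain ⟨i, hi1, hi2⟩ := h5.exists
    have h6 : (1:ℝ) ≤ ∑' j, (|l (e.symm (i, j))| + z 0 (e.symm (i, j))) ^ p := by
      refine le_trans ?_ ((h3.1 i).sum_le_tsum (J (2 ^ i)) (fun _ _ => hynn _))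
      have h7 : ∀ j ∈ J (2 ^ i), (1 / 2 : ℝ) ^ (2 ^ i) ≤
          (|l (e.symm (i, j))| + z 0 (e.symm (i, j))) ^ p := by
        intro j hj
        have hj' := hj
        unfold J at hj'
        rw [mem_Ico] at hj'
        have hjK : K ≤ j := by
          have a1 : i < 2 ^ i := Nat.lt_two_pow_self
          have a2 : 2 ^ i < 2 ^ (2 ^ i) := Nat.lt_two_pow_self
          omega
        have h8 := hK j hjK (e.symm (i, j))
        simp only [Equiv.apply_symm_apply] at h8
        have h9 : X j (i, j) = w i * (2 : ℝ) ^ i := by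
          simp only [hX]
          rw [if_pos hj, L_self]
          push_cast
          rfl
        rw [h9] at h8
        have h10 : w i * (2 : ℝ) ^ i ≤ |l (e.symm (i, j))| + z 0 (e.symm (i, j)) := by
          have b1 := abs_le.1 h8
          have b2 := le_abs_self (l (e.symm (i, j)))
          linarith [b1.2]
        have h11 : (w i * (2 : ℝ) ^ i) ^ p = (1 / 2 : ℝ) ^ (2 ^ i) := by
          rw [Real.mul_rpow (hwpos i).le (by positivity), hwp]
          simp only [hW]
          rw [mul_assoc, ← Real.rpow_add (by positivity), neg_add_cancel, Real.rpow_zero, mul_one]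
        rw [← h11]
        exact Real.rpow_le_rpow (mul_nonneg (hwpos i).le (by positivity)) h10 hp0.le
      refine le_trans ?_ (sum_le_sum h7)
      rw [sum_const, nsmul_eq_mul]
      have h12 : ((J (2 ^ i)).card : ℝ) = 2 ^ (2 ^ i) := by
        unfold J
        rw [Nat.card_Ico, pow_succ, mul_two, Nat.add_sub_cancel]
        push_cast
        rfl
      rw [h12, ← mul_pow]
      norm_num
    linarith

end Pool.Agent.Results.MP_55c50e_an.NotBuoComplete
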